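import Pool.Agent.MWST.Upper

/-!
# A planar point set without a minimum-weight Steiner triangulation

The set `P = {(0, 200), (0, -200), (4, 0), (1, 0)}` consists of four points in general position.
The infimum `W P` of the weights of its Steiner triangulations is `413 + 2 √40016`; it is not
attained: every Steiner triangulation of `P` is strictly heavier.  This answers Q1 in the
negative.
-/

namespace Pool.Agent.Results.MP_f600e0_lc.NoMinimum

open Pool.Agent.MWST

lemma ori_eq_zero_of_collinear {x y z : Plane} (h : Collinear ℝ ({x, y, z} : Set Plane)) :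
    ori x y z = 0 := by
  rw [collinear_iff_of_mem (p₀ := x) (by simp)] at h
  obtain ⟨v, hv⟩ := h
  obtain ⟨r, hr⟩ := hv y (by simp)
  obtain ⟨r', hr'⟩ := hv z (by simp)
  subst hr hr'
  unfold ori
  simp
  ring

/-- Every Steiner triangulation of a set containing the four points is heavier than the limit
value. -/
lemma lower {P : Finset Plane} (ha : pa ∈ P) (hb : pb ∈ P) (hc : pc ∈ P) (hd : pd ∈ P)
    {T : Finset (Sym2 Plane)} (hT : IsSteinerTriangulation P T) :
    413 + 2 * √40016 < weight T := by
  classical
  obtain ⟨S, hPS, hT⟩ := hT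
  have h1 := inner_bound hT (hPS ha) (hPS hb) (hPS hc) (hPS hd)
  have h2 := outer_bound hT (hPS ha) (hPS hc) (hPS hd)
  rw [dist_ac, dist_cd, dist_da] at h2
  have h3 : weight T = ∑ e ∈ T.filter (IsInner S), len e +
      ∑ e ∈ T.filter (fun e => ¬ IsInner S e), len e := by
    unfold weight
    rw [Finset.sum_filter_add_sum_filter_not]
  rw [h3]
  linarith

/-- The Steiner points of the approximating triangulations lie in the convex hull of `P`. -/
lemma mem_hull {P : Set Plane} (ha : pa ∈ P) (hd : pd ∈ P) (hP : ∀ x ∈ P, x ∈ convexHull ℝ P)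
    {t : ℝ} (h1 : |t| ≤ 1) : (!₂[0, t] : Plane) ∈ convexHull ℝ P := by
  rw [abs_le] at h1
  have h := (convex_convexHull ℝ P) (hP _ hd) (hP _ ha) (a := (200 + t) / 400)
    (b := (200 - t) / 400) (by linarith [h1.1]) (by linarith [h1.2]) (by ring)
  convert h using 1
  ext i
  fin_cases i
  · simp
  · simp
    ring

/-- **Main theorem.**  The four points `(0, 200), (0, -200), (4, 0), (1, 0)` are in general
position (no three are collinear), the infimum of the weights of the Steiner triangulations of
this set is `413 + 2 √40016`, and no Steiner triangulation attains it. -/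
theorem result :
    ∃ P : Finset Plane,
      (P : Set Plane) = {!₂[0, 200], !₂[0, -200], !₂[4, 0], !₂[1, 0]} ∧
      (∀ x ∈ P, ∀ y ∈ P, ∀ z ∈ P, x ≠ y → x ≠ z → y ≠ z →
        ¬ Collinear ℝ ({x, y, z} : Set Plane)) ∧
      W P = 413 + 2 * √40016 ∧
      (¬ ∃ T : Finset (Sym2 Plane), IsSteinerTriangulation P T ∧ weight T = W P) ∧
      ∀ ε : ℝ, 0 < ε → ∃ (S : Finset Plane) (T : Finset (Sym2 Plane)), P ⊆ S ∧
        (∀ x ∈ S, x ∈ convexHull ℝ (P : Set Plane)) ∧ IsTriangulation S T ∧
        weight T < W P + ε := by
  classical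
  set P : Finset Plane := {pd, pa, pc, pb} with hP
  have hmem : ∀ x ∈ P, x = pa ∨ x = pb ∨ x = pc ∨ x = pd := by
    intro x hx
    simp only [hP, Finset.mem_insert, Finset.mem_singleton] at hx
    tauto
  have ha : pa ∈ P := by simp [hP]
  have hb : pb ∈ P := by simp [hP]
  have hc : pc ∈ P := by simp [hP]
  have hd : pd ∈ P := by simp [hP]
  have hlow : ∀ T, IsSteinerTriangulation P T → 413 + 2 * √40016 < weight T :=
    fun T hT => lower ha hb hc hd hT
  have hW : W P = 413 + 2 * √40016 := by
    apply le_antisymm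
    · apply le_of_forall_pos_le_add
      intro ε hε
      set h : ℝ := min 1 (ε / 4) with hh
      have h0 : 0 < h := lt_min one_pos (by linarith)
      have h1 : h ≤ 1 := min_le_left _ _
      have h2 : h ≤ ε / 4 := min_le_right _ _
      have hT := Th_steiner hmem h0 h1
      have hw := weight_Th h0 h1
      have : W P ≤ weight (Th h) := by
        apply csInf_le
        · refine ⟨413 + 2 * √40016, ?_⟩
          rintro w ⟨T, hT, rfl⟩
          exact (hlow T hT).le
        · exact ⟨Th h, hT, rfl⟩
      linarith
    · apply le_csInf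
      · exact ⟨weight (Th 1), Th 1, Th_steiner hmem one_pos le_rfl, rfl⟩
      · rintro w ⟨T, hT, rfl⟩
        exact (hlow T hT).le
  refine ⟨P, ?_, ?_, hW, ?_, ?_⟩
  · rw [hP]
    simp only [Finset.coe_insert, Finset.coe_singleton]
    rfl
  · intro x hx y hy z hz hxy hxz hyz hcol
    have hor := ori_eq_zero_of_collinear hcol
    unfold ori at hor
    rcases hmem x hx with rfl | rfl | rfl | rfl <;> rcases hmem y hy with rfl | rfl | rfl | rfl <;>
      rcases hmem z hz with rfl | rfl | rfl | rfl <;>
      first
      | exact absurd rfl hxy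
      | exact absurd rfl hxz
      | exact absurd rfl hyz
      | (simp only [pa0, pa1, pb0, pb1, pc0, pc1, pd0, pd1] at hor; norm_num at hor)
  · rintro ⟨T, hT, hwT⟩
    have := hlow T hT
    rw [hwT, hW] at this
    exact lt_irrefl _ this
  · intro ε hε
    obtain ⟨h, h0, h1, h2⟩ : ∃ h : ℝ, 0 < h ∧ h ≤ 1 ∧ 4 * h < ε :=
      ⟨min 1 (ε / 8), lt_min one_pos (by linarith), min_le_left _ _,
        by linarith [min_le_right 1 (ε / 8)]⟩
    have hsub : ∀ x ∈ (P : Set Plane), x ∈ convexHull ℝ (P : Set Plane) := fun x hx =>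
      subset_convexHull ℝ _ hx
    refine ⟨Sh h, Th h, ?_, ?_, Th_triangulation h0 h1, ?_⟩
    · intro x hx
      rw [mem_Sh]
      rcases hmem x hx with rfl | rfl | rfl | rfl <;> simp
    · intro x hx
      rw [mem_Sh] at hx
      rcases hx with rfl | rfl | rfl | rfl | rfl | rfl
      · exact hsub _ ha
      · exact hsub _ hb
      · exact hsub _ hc
      · exact hsub _ hd
      · exact mem_hull ha hd hsub (by rw [abs_of_pos h0]; exact h1)
      · exact mem_hull ha hd hsub (by rw [abs_neg, abs_of_pos h0]; exact h1)
    · have := weight_Th h0 h1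
      rw [hW]
      linarith

end Pool.Agent.Results.MP_f600e0_lc.NoMinimum
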